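import Mathlib
import Pool.Agent.H55.TreeHt
import Pool.Agent.H42.Stat
import Pool.Agent.H42.WeakDiamond

/-! Weak diamond refutes ladder system uniformization on trees without stationary antichains. -/

namespace Pool.Agent.Results.MP_66bd88_lc.NoUnif

open Set
open Cardinal hiding univ

universe u

/-- the well-order `ω₁` of the countable ordinals -/
abbrev W : Type := (ℵ_ 1 : Cardinal.{0}).ord.ToType

/-- the level `T_α`: nodes whose set of predecessors has order type `α` -/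
def level (T : Type u) [PartialOrder T] (α : W) : Set T := {t | Nonempty (Iio t ≃o Iio α)}

/-- an `ℵ₁`-tree: height `ω₁`, all levels countable -/
def Aleph1Tree (T : Type u) [PartialOrder T] : Prop :=
  (∀ t : T, ∃ α, t ∈ level T α) ∧ (∀ α, (level T α).Nonempty) ∧ ∀ α, (level T α).Countable

/-- no antichain has a stationary set of heights -/
def NoStatAntichain (T : Type u) [PartialOrder T] : Prop :=
  ∀ A : Set T, IsAntichain (· ≤ ·) A → ¬ IsStationary {α | ∃ a ∈ A, a ∈ level T α}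

/-- non-empty, downward closed and pruned -/
def Subtree {T : Type u} [PartialOrder T] (S : Set T) : Prop :=
  S.Nonempty ∧ IsLowerSet S ∧ ∀ s ∈ S, ∀ α, ∃ β, α ≤ β ∧ ∃ t ∈ S, s ≤ t ∧ t ∈ level T β

/-- ladder systems -/
def Ladder (C : W → Set W) : Prop :=
  ∀ α, Order.IsSuccLimit α →
    C α ⊆ Iio α ∧ (∀ β < α, ∃ ξ ∈ C α, β ≤ ξ) ∧ Nonempty (C α ≃o ℕ)

/-- every monochromatic 2-colouring of `C` (with colour `f α` on `C α`) has a
`T`-uniformization -/
def Unif (T : Type u) [PartialOrder T] (C : W → Set W) : Prop :=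
  ∀ f : W → Bool, ∃ S : Set T, Subtree S ∧ ∃ φ : S → Bool,
    ∀ α, Order.IsSuccLimit α → ∀ s ∈ S, s ∈ level T α →
      {ξ ∈ C α | ∃ t : S, t.1 < s ∧ t.1 ∈ level T ξ ∧ φ t ≠ f α}.Finite

open Pool.Agent.H55 Pool.Agent.H42

theorem result (h : (2 : Cardinal.{0}) ^ ℵ₀ < 2 ^ ℵ_ 1) (T : Type u) [PartialOrder T]
    (hT : Aleph1Tree T) (hA : NoStatAntichain T) (C : W → Set W) (hC : Ladder C) :
    ¬ Unif T C := by
  classical
  intro hU
  obtain ⟨ht, hl, hm, hs, -⟩ := TreeHt.exists_ht hT.1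
  replace hl : ∀ t α, t ∈ level T α ↔ ht t = α := hl
  choose e he using fun α => countable_iff_exists_injOn.1 (hT.2.2 α)
  obtain ⟨m⟩ : Nonempty W := inferInstance
  let P : W → (W → ℕ → Option Bool) → Prop := fun δ H => ∃ t, ht t = δ ∧
    (∀ s < t, H (ht s) (e (ht s) s) ≠ none) ∧
      {ξ ∈ C δ | ∃ s < t, ht s = ξ ∧ H (ht s) (e (ht s) s) ≠ some true}.Finite
  have hP : ∀ δ H H', (∀ i < δ, H i = H' i) → P δ H → P δ H' := by
    rintro δ H H' hH ⟨t, h1, h2, h3⟩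
    have k : ∀ s < t, H (ht s) = H' (ht s) := fun s hs => hH _ (h1 ▸ hm hs)
    refine ⟨t, h1, fun s hs => k s hs ▸ h2 s hs, h3.subset ?_⟩
    rintro ξ ⟨k1, s, k2, k3, k4⟩
    exact ⟨k1, s, k2, k3, k s k2 ▸ k4⟩
  have key := WeakDiamond.ds TreeHt.regW ℕ (ℕ → Option Bool)
    (by rw [StepTree.mk_W]; simpa using aleph0_lt_aleph_one) (by simp)
    (by rw [StepTree.mk_W]; simpa using aleph_one_le_continuum)
    (by
      rw [← power_def, mk_nat, two_power_aleph0, ← continuum_power_aleph0]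
      exact power_le_power_right (mk_le_aleph0.trans aleph0_le_continuum))
    (fun ν hν => power_le_power_left two_ne_zero (by
      rw [StepTree.mk_W, ← succ_aleph0] at hν
      simpa using Order.lt_succ_iff.1 hν))
    m (fun δ H => decide (P δ H)) (fun δ H H' hH => decide_eq_decide.2
      ⟨hP δ H H' hH, hP δ H' H fun i hi => (hH i hi).symm⟩) (fun f => ?_)
  · rw [StepTree.mk_W, mk_nat] at key
    exact absurd h key.not_gt
  obtain ⟨S, ⟨⟨s0, hs0⟩, hlow, hpr⟩, φ, hφ⟩ := hU f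
  let H : W → ℕ → Option Bool := fun ξ n =>
    if h : ∃ s : S, ht s = ξ ∧ e ξ s = n then some (φ h.choose) else none
  have hH1 : ∀ s : S, H (ht s) (e (ht s) s) = some (φ s) := fun s => by
    have h : ∃ s' : S, ht s' = ht s ∧ e (ht s) s' = e (ht s) s := ⟨s, rfl, rfl⟩
    have : h.choose = s :=
      Subtype.ext (he _ ((hl _ _).2 h.choose_spec.1) ((hl _ _).2 rfl) h.choose_spec.2)
    simp only [H, dif_pos h, this]
  have hH2 : ∀ s, H (ht s) (e (ht s) s) ≠ none → s ∈ S := fun s hne => by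
    by_cases h : ∃ s' : S, ht s' = ht s ∧ e (ht s) s' = e (ht s) s
    · obtain ⟨s', h1, h2⟩ := h
      exact he _ ((hl _ _).2 h1) ((hl _ _).2 rfl) h2 ▸ s'.2
    · exact absurd (dif_neg h) hne
  have hns : ¬ Stat.Stat {α | ∃ a ∈ {t | t ∉ S ∧ ∀ s < t, s ∈ S}, a ∈ level T α} := fun hst =>
    hA _ (fun a ha b hb hne hab => ha.1 (hb.2 a (lt_of_le_of_ne hab hne)))
      (hst.isStationary TreeHt.regW)
  obtain ⟨g, hg⟩ := not_forall.1 hns
  choose nx hnx using TreeHt.regW.exists_gt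
  refine ⟨H, fun i => max (g i) (nx i), fun δ hδ hcl => ?_⟩
  have hlim : Order.IsSuccLimit δ := ⟨not_isMin_of_lt hδ, fun i hi =>
    hi.2 (hnx i) ((le_max_right _ _).trans_lt (hcl i hi.1))⟩
  have hin : ∀ t, ht t = δ → (∀ s < t, s ∈ S) → t ∈ S := fun t h1 h2 => by
    by_contra h3
    exact hg ⟨δ, ⟨t, ⟨h3, h2⟩, (hl _ _).2 h1⟩, ⟨m, hδ⟩,
      fun i hi => (le_max_left _ _).trans_lt (hcl i hi)⟩
  cases hf : f δ
  · refine (decide_eq_false ?_).symm
    rintro ⟨t, h1, h2, h3⟩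
    have htS := hin t h1 fun s hs => hH2 s (h2 s hs)
    obtain ⟨k1, -, ⟨ψ⟩⟩ := hC δ hlim
    have hinf : (C δ).Infinite := infinite_coe_iff.1 (Infinite.of_surjective ψ ψ.surjective)
    refine hinf ((h3.union (hφ δ hlim t htS ((hl _ _).2 h1))).subset fun ξ hξ => ?_)
    obtain ⟨s, k2, k3⟩ := hs t ξ (h1 ▸ k1 hξ)
    have hsS : s ∈ S := hlow k2.le htS
    cases hv : φ ⟨s, hsS⟩
    · exact Or.inl ⟨hξ, s, k2, k3, by rw [hH1 ⟨s, hsS⟩, hv]; simp⟩
    · exact Or.inr ⟨hξ, ⟨s, hsS⟩, k2, (hl _ _).2 k3, by rw [hv, hf]; simp⟩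
  · refine (decide_eq_true ?_).symm
    obtain ⟨t, htS, h1⟩ : ∃ t ∈ S, ht t = δ := by
      obtain ⟨β, k1, t, k2, -, k3⟩ := hpr s0 hs0 δ
      rw [hl] at k3
      rcases k1.eq_or_lt with k | k
      · exact ⟨t, k2, k3.trans k.symm⟩
      · obtain ⟨s, k4, k5⟩ := hs t δ (k3 ▸ k)
        exact ⟨s, hlow k4.le k2, k5⟩
    refine ⟨t, h1, fun s hs => by rw [hH1 ⟨s, hlow hs.le htS⟩]; simp,
      (hφ δ hlim t htS ((hl _ _).2 h1)).subset ?_⟩
    rintro ξ ⟨k1, s, k2, k3, k4⟩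
    refine ⟨k1, ⟨s, hlow k2.le htS⟩, k2, (hl _ _).2 k3, fun k5 => k4 ?_⟩
    rw [hH1 ⟨s, hlow k2.le htS⟩, k5, hf]

end Pool.Agent.Results.MP_66bd88_lc.NoUnif
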